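import Pool.Agent.P.MP_858cbd_lc.ScD
import Pool.Agent.P.MP_858cbd_lc.ScE

set_option autoImplicit false

open MeasureTheory Pool.Agent.P.MP_858cbd_lc

theorem Pool.Agent.Results.MP_858cbd_lc.SpeedThreshold.result (s : ℝ) : List.TFAE
    [1 < s,
     ∃ (C : ℝ) (A : (p : ℕ) → List Job → Sched p), ∀ p : ℕ, 1 ≤ p →
      Online (A p) ∧ DecideOnArrival (A p) ∧
      ∀ L, ValidInput L → Feasible L (A p L) ∧
        ∀ S : Sched p, Feasible L S → mrt s L (A p L) ≤ ENNReal.ofReal C * mrt 1 L S,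
     ∃ C : ℝ, ∀ p : ℕ, 1 ≤ p → ∃ (Ω : Type) (_ : MeasurableSpace Ω) (μ : Measure Ω)
      (_ : IsProbabilityMeasure μ) (A : Ω → List Job → Sched p), (∀ ω, DecideOnArrival (A ω)) ∧
      ∀ L, ValidInput L → (∀ ω, Feasible L (A ω L)) ∧
        AEMeasurable (fun ω => mrt s L (A ω L)) μ ∧
        ∀ S : Sched p, Feasible L S →
          ∫⁻ ω, mrt s L (A ω L) ∂μ ≤ ENNReal.ofReal C * mrt 1 L S] := by
  tfae_have 1 → 2 := fun hs => ⟨_, _, Pool.Agent.Sc858.upper hs⟩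
  tfae_have 2 → 3 := fun ⟨C, A, h⟩ => ⟨C, fun p hp => ⟨Unit, inferInstance, Measure.dirac (),
    inferInstance, fun _ => A p, fun _ => (h p hp).2.1, fun L hL =>
      ⟨fun _ => ((h p hp).2.2 L hL).1, aemeasurable_const, fun S hS => by
        simpa using ((h p hp).2.2 L hL).2 S hS⟩⟩⟩
  tfae_have 3 → 1 := fun ⟨C, h⟩ => not_le.1 fun hs => by
    obtain ⟨Ω, _, μ, _, A, h1, h2⟩ := h ((⌈24 * |C|⌉₊ + 3) ^ 3) (Nat.one_le_pow _ _ (by omega))
    have h3 := Pool.Agent.Sc858.lower_rand hs (by omega) h1 h2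
    have h4 := Nat.le_ceil (24 * |C|)
    push_cast at h3
    linarith
  tfae_finish

/-- Q1 as posed: the case `s = 2` of `result`. -/
theorem Pool.Agent.Results.MP_858cbd_lc.SpeedThreshold.posed :
    ∃ s : ℝ, 1 ≤ s ∧ ∃ (C : ℝ) (A : (p : ℕ) → List Job → Sched p), ∀ p : ℕ, 1 ≤ p →
      Online (A p) ∧ DecideOnArrival (A p) ∧
      ∀ L, ValidInput L → Feasible L (A p L) ∧
        ∀ S : Sched p, Feasible L S → mrt s L (A p L) ≤ ENNReal.ofReal C * mrt 1 L S :=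
  ⟨2, one_le_two, ((Pool.Agent.Results.MP_858cbd_lc.SpeedThreshold.result 2).out 0 1).1 one_lt_two⟩

/-- The ratio given by the proof for `s > 1`. -/
theorem Pool.Agent.Results.MP_858cbd_lc.SpeedThreshold.ratio_upper {s : ℝ} (hs : 1 < s) :
    ∃ A : (p : ℕ) → List Job → Sched p, ∀ p : ℕ, 1 ≤ p →
      Online (A p) ∧ DecideOnArrival (A p) ∧
      ∀ L, ValidInput L → Feasible L (A p L) ∧ ∀ S : Sched p, Feasible L S →
        mrt s L (A p L) ≤ ENNReal.ofReal (4 * s * (s + 1) / (s - 1) ^ 2) * mrt 1 L S :=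
  ⟨_, Pool.Agent.Sc858.upper hs⟩

/-- On `k ^ 3` processors at speed at most one the ratio is at least `k / 24`. -/
theorem Pool.Agent.Results.MP_858cbd_lc.SpeedThreshold.ratio_lower {s C : ℝ} (hs : s ≤ 1) {k : ℕ}
    (hk : 3 ≤ k) {Ω : Type} [MeasurableSpace Ω] {μ : Measure Ω} [IsProbabilityMeasure μ]
    {A : Ω → List Job → Sched (k ^ 3)} (hA : ∀ ω, DecideOnArrival (A ω))
    (h : ∀ L, ValidInput L → (∀ ω, Feasible L (A ω L)) ∧
      AEMeasurable (fun ω => mrt s L (A ω L)) μ ∧ ∀ S : Sched (k ^ 3), Feasible L S →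
        ∫⁻ ω, mrt s L (A ω L) ∂μ ≤ ENNReal.ofReal C * mrt 1 L S) : (k : ℝ) ≤ 24 * |C| :=
  Pool.Agent.Sc858.lower_rand hs hk hA h
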