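import Pool.Agent.P.MP_858cbd_lc.XoE
import Pool.Agent.P.MP_858cbd_lc.XoF
import Pool.Agent.P.MP_858cbd_lc.XoG

set_option autoImplicit false

open Pool.Agent

theorem Pool.Agent.Results.MP_858cbd_lc.Vectors.result (s : ℝ) (hs : 1 < s)
    (I : Type) [Fintype I] :
    ∃ (A : List (Xo858.Task I) → ℝ → I → Option ℕ) (pick : List (Xo858.Task I) → ℕ → I → ℝ),
      Xo858.Online A ∧ Xo858.AtArrival pick ∧ ∀ L, Xo858.Valid L → Xo858.Feasible L (A L) ∧
        (∀ i : Fin L.length, pick L i ∈ (L.get i).menu) ∧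
        (∀ τ k i, A L τ k = some i → 0 < pick L i k) ∧ ∀ S, Xo858.Feasible L S →
          ∑ i : Fin L.length,
              ENNReal.ofReal (L.get i).wt * Xo858.resp s (L.get i).arr {pick L i} (A L) i ≤
            ENNReal.ofReal (4 * s * (s + 1) / (s - 1) ^ 2) * ∑ i : Fin L.length,
              ENNReal.ofReal (L.get i).wt * Xo858.resp 1 (L.get i).arr (L.get i).menu S i := by
  have hc : 0 < (1 + s) / (2 * s) := by positivity
  exact ⟨_, _, Xo858.alg_online, Xo858.pk_atArrival, fun L hL => ⟨Xo858.alg_feasible hc hL,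
    Xo858.pk_mem hL, fun _ _ _ h => Xo858.pk_pos hc hL h, Xo858.upper hs hL⟩⟩

open Pool.Agent.P.MP_858cbd_lc in
/-- Lists of implementations `(W, D)` with work `W` and at most `D` processors at once: the menu
of the vectors with rate `1 / W` on a set of at most `D` processors. From `result`. -/
theorem Pool.Agent.Results.MP_858cbd_lc.Vectors.menu (s : ℝ) (hs : 1 < s) :
    ∃ A : (p : ℕ) → List Menu.Task → Menu.MSched p, ∀ p : ℕ, 1 ≤ p →
      Menu.MOnline (A p) ∧ Menu.MDecide (A p) ∧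
      ∀ L, Menu.Valid L → Menu.MFeasible L (A p L) ∧ ∀ S : Menu.MSched p, Menu.MFeasible L S →
        Menu.wrt s L (A p L) ≤ ENNReal.ofReal (4 * s * (s + 1) / (s - 1) ^ 2) * Menu.wrt 1 L S := by
  have h : ∀ p : ℕ, ∃ A : List Menu.Task → Menu.MSched p, 1 ≤ p →
      Menu.MOnline A ∧ Menu.MDecide A ∧
      ∀ L, Menu.Valid L → Menu.MFeasible L (A L) ∧ ∀ S : Menu.MSched p, Menu.MFeasible L S →
        Menu.wrt s L (A L) ≤ ENNReal.ofReal (4 * s * (s + 1) / (s - 1) ^ 2) * Menu.wrt 1 L S := by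
    intro p
    by_cases hp : 1 ≤ p
    · obtain ⟨A, pick, h⟩ := Pool.Agent.Results.MP_858cbd_lc.Vectors.result s hs (Fin p)
      obtain ⟨A', h'⟩ := Xo858.to_menu hp h
      exact ⟨A', fun _ => h'⟩
    · exact ⟨fun _ => ⟨fun _ => (1, 1), fun _ _ => none⟩, fun h => absurd h hp⟩
  choose A hA using h
  exact ⟨A, hA⟩

open Pool.Agent.P.MP_858cbd_lc in
/-- Q1 as posed, from `result` through `menu`: weights one, speed two. -/
theorem Pool.Agent.Results.MP_858cbd_lc.Vectors.posed :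
    ∃ s : ℝ, 1 ≤ s ∧ ∃ (C : ℝ) (A : (p : ℕ) → List Job → Sched p), ∀ p : ℕ, 1 ≤ p →
      Online (A p) ∧ DecideOnArrival (A p) ∧
      ∀ L, ValidInput L → Feasible L (A p L) ∧
        ∀ S : Sched p, Feasible L S → mrt s L (A p L) ≤ ENNReal.ofReal C * mrt 1 L S := by
  obtain ⟨A, hA⟩ := Pool.Agent.Results.MP_858cbd_lc.Vectors.menu 2 one_lt_two
  exact ⟨2, one_le_two, _, _, fun p hp => Pool.Agent.Mn858.transfer hp (hA p hp)⟩

/-- Q1 once more, with nothing but library words: a task is `(t, σ, π)`, `m i = 0` means serial,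
`V` valid lists, `F` feasible schedules, `R` mean response time. -/
theorem Pool.Agent.Results.MP_858cbd_lc.Vectors.plain :
    let V : List (ℝ × ℝ × ℝ) → Prop := fun L =>
      L.Pairwise (fun a b => a.1 ≤ b.1) ∧ ∀ a ∈ L, 0 ≤ a.1 ∧ 0 < a.2.1 ∧ a.2.1 < a.2.2
    ∃ s : ℝ, 1 ≤ s ∧ ∃ C : ℝ, ∀ p : ℕ, 1 ≤ p →
      let F : List (ℝ × ℝ × ℝ) → (ℕ → ℕ) → (ℝ → Fin p → Option ℕ) → Prop := fun L m S =>
        (∀ k i, MeasurableSet {τ | S τ k = some i}) ∧
        (∀ τ k i, S τ k = some i → ∃ h : i < L.length, L[i].1 ≤ τ) ∧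
        ∀ τ k k' i, m i = 0 → S τ k = some i → S τ k' = some i → k = k'
      let R : ℝ → List (ℝ × ℝ × ℝ) → (ℕ → ℕ) → (ℝ → Fin p → Option ℕ) → ENNReal := fun s L m S =>
        (∑ i : Fin L.length, ⨅ (T : ℝ)
          (_ : ENNReal.ofReal (if m i = 0 then (L.get i).2.1 else (L.get i).2.2) ≤
            ENNReal.ofReal s * ∑ k, MeasureTheory.volume {τ | τ ≤ T ∧ S τ k = some (i : ℕ)}),
          ENNReal.ofReal (T - (L.get i).1)) / L.length
      ∃ (A : List (ℝ × ℝ × ℝ) → ℝ → Fin p → Option ℕ) (m : List (ℝ × ℝ × ℝ) → ℕ → ℕ),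
        (∀ L L' T, V L → V L' → L.filter (fun a => a.1 ≤ T) = L'.filter (fun a => a.1 ≤ T) →
          ∀ τ ≤ T, A L τ = A L' τ) ∧
        (∀ L L' (i : Fin L.length), V L → V L' →
          L.filter (fun a => a.1 ≤ (L.get i).1) = L'.filter (fun a => a.1 ≤ (L.get i).1) →
          m L i = m L' i) ∧
        ∀ L, V L → F L (m L) (A L) ∧
          ∀ m' S, F L m' S → R s L (m L) (A L) ≤ ENNReal.ofReal C * R 1 L m' S :=
  Xo858.plain_of Pool.Agent.Results.MP_858cbd_lc.Vectors.posed
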